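import Pool.Agent.H.MP_770ffc_an.B

namespace Pool.Agent.Results.MP_770ffc_an.No

open MeasureTheory Set Metric

/-- Bounded planar Lipschitz domain. -/
def LipDomain (Ω : Set ℂ) : Prop :=
  IsOpen Ω ∧ IsConnected Ω ∧ Bornology.IsBounded Ω ∧
    ∀ p ∈ frontier Ω, ∃ w : ℂ, ‖w‖ = 1 ∧ ∃ r : ℝ, 0 < r ∧ ∃ (K : NNReal) (g : ℝ → ℝ),
      LipschitzWith K g ∧ ∀ x ∈ ball p r, (x ∈ Ω ↔ (w * x).im < g (w * x).re)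

/-- The first nontrivial Neumann eigenvalue, by its variational characterisation. -/
noncomputable def mu1 (Ω : Set ℂ) : ℝ :=
  sInf {t | ∃ u : ℂ → ℝ, ContDiff ℝ 1 u ∧ ∫ z in Ω, u z = 0 ∧ 0 < ∫ z in Ω, u z ^ 2 ∧
    t = (∫ z in Ω, ‖fderiv ℝ u z‖ ^ 2) / ∫ z in Ω, u z ^ 2}

theorem result (ε : ℝ) (hε : 0 < ε) : ∃ Ω₁ Ω₂ : Set ℂ, LipDomain Ω₁ ∧ LipDomain Ω₂ ∧ Ω₁ ⊆ Ω₂ ∧
    Convex ℝ Ω₁ ∧ 0 < mu1 Ω₂ ∧ mu1 Ω₁ / mu1 Ω₂ < ε :=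
  Pool.Agent.H.MP_770ffc_an.main ε hε

end Pool.Agent.Results.MP_770ffc_an.No
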